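import Pool.Agent.H8.DS.TarG

set_option autoImplicit false

namespace DS

open Set Data Filter Topology

namespace H97ESCU

lemma hopf_kind {C S : Type} (X : Data C S) (hX : X.Surface) (c : C) (hc : X.Hopf c) :
    ∃ l : ℝ, 1 < l ∧ X.kind c = .hopf l := by
  have hg := hX.good c
  unfold Data.Hopf at hc
  cases hk : X.kind c with
  | flat e f => rw [hk] at hc; exact absurd hc (by simp [Comp.IsHopf])
  | hopf l => rw [hk] at hg; exact ⟨l, hg, rfl⟩

lemma mem_deck {C S : Type} (X : Data C S) (c : C) {l : ℝ} (hk : X.kind c = .hopf l) (n : ℤ) :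
    ((l ^ n, 0, 0) : ℝ × ℝ × ℝ) ∈ X.deck c := by
  unfold Data.deck
  rw [hk]
  exact ⟨(n, 0), rfl⟩

/-- small perturbation for large powers -/
lemma small {l : ℝ} (hl : 1 < l) (A : ℝ) {ε : ℝ} (hε : 0 < ε) :
    ∀ᶠ n : ℕ in atTop, |A * (l ^ n)⁻¹| < ε := by
  have h1 : Tendsto (fun n : ℕ => l ^ n) atTop atTop := tendsto_pow_atTop_atTop_of_one_lt hl
  have h2 : Tendsto (fun n : ℕ => A * (l ^ n)⁻¹) atTop (𝓝 (A * 0)) :=
    (tendsto_inv_atTop_zero.comp h1).const_mul A
  rw [mul_zero] at h2
  have h3 := h2.abs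
  rw [abs_zero] at h3
  exact h3.eventually (gt_mem_nhds hε)

lemma large {l : ℝ} (hl : 1 < l) (A : ℝ) {B : ℝ} (hB : 0 < B) :
    ∀ᶠ n : ℕ in atTop, A < l ^ n * B := by
  have h1 : Tendsto (fun n : ℕ => l ^ n) atTop atTop := tendsto_pow_atTop_atTop_of_one_lt hl
  filter_upwards [h1.eventually_gt_atTop (A / B)] with n hn
  rwa [div_lt_iff₀ hB] at hn

end H97ESCU

open H97ESCU

theorem pf_ESCU : T_ESCU := by
  intro C S X hX hU t hT c hc z hz
  obtain ⟨l, hl, hkd⟩ := hopf_kind X hX c hc
  have hl0 : 0 < l := by linarith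
  refine ⟨fun k hk => ?_, fun ε hε => ?_⟩
  · by_contra hnp
    have hne : ((k * t, k) : ℝ × ℝ) ≠ 0 := by
      intro h
      have := congrArg Prod.snd h
      simp at this
      linarith
    have hon : X.OnSlit c (k * t, k) := by
      by_contra h
      exact hnp ⟨h, fun _ => hne⟩
    obtain ⟨s, hs, g, hg, ξ, hξ, he⟩ := hon
    obtain ⟨j, rfl⟩ : ∃ j : ℤ × ℤ, g = (X.kind c).el j := by
      obtain ⟨j, hj⟩ := hg
      exact ⟨j, hj.symm⟩
    rw [hkd] at he
    simp only [Comp.el, act, Data.pt, add_zero] at he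
    have e1 : k * t = l ^ j.1 * (X.a s + ξ * X.len s) := congrArg Prod.fst he
    have e2 : k = l ^ j.1 * X.b s := congrArg Prod.snd he
    have hp : 0 < l ^ j.1 := zpow_pos hl0 _
    have hb : 0 < X.b s := by
      by_contra hb
      push Not at hb
      have := mul_nonpos_of_nonneg_of_nonpos hp.le hb
      linarith
    have e3 : t * X.b s = X.a s + ξ * X.len s := by
      have : l ^ j.1 * (t * X.b s) = l ^ j.1 * (X.a s + ξ * X.len s) := by
        rw [← e1]
        linear_combination (-t) * e2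
      exact mul_left_cancel₀ hp.ne' this
    have hlen := hX.pos s
    have hHs : X.Hopf (X.comp s) := by rw [hs]; exact hc
    obtain ⟨hn1, hn2⟩ := hT.ends s hHs hb
    have h1 : X.a s < t * X.b s := by
      refine lt_of_le_of_ne ?_ hn1
      rw [e3]
      have := mul_nonneg hξ.1 hlen.le
      linarith
    have h2 : t * X.b s < X.a s + X.len s := by
      refine lt_of_le_of_ne ?_ hn2.symm
      rw [e3]
      have := mul_le_mul_of_nonneg_right hξ.2 hlen.le
      linarith
    set m : ℝ := min (t * X.b s - X.a s) (X.a s + X.len s - t * X.b s) with hm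
    have hmpos : 0 < m := lt_min (by linarith) (by linarith)
    obtain ⟨n, hn1, hn2⟩ := ((small hl (z.1 - t * z.2) hmpos).and (large hl z.2 hb)).exists
    have hP : 0 < l ^ n := pow_pos hl0 n
    have hpure := hz (l ^ n * X.b s - z.2) (by linarith)
    set η : ℝ := (t * X.b s + (z.1 - t * z.2) * (l ^ n)⁻¹ - X.a s) / X.len s with hη
    have hηm : η * X.len s = t * X.b s + (z.1 - t * z.2) * (l ^ n)⁻¹ - X.a s := by
      rw [hη]; field_simp
    have hab := abs_lt.mp hn1
    have hm1 : m ≤ t * X.b s - X.a s := min_le_left _ _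
    have hm2 : m ≤ X.a s + X.len s - t * X.b s := min_le_right _ _
    have hη0 : 0 < η := by
      rw [hη]
      apply div_pos _ hlen
      linarith [hab.1]
    have hη1 : η < 1 := by
      rw [hη, div_lt_one hlen]
      linarith [hab.2]
    apply hpure.1
    refine ⟨s, hs, _, mem_deck X c hkd n, η, ⟨hη0.le, hη1.le⟩, ?_⟩
    unfold act fwd Data.pt
    ext
    · simp only [add_zero, zpow_natCast]
      rw [hηm]
      field_simp
      ring
    · simp
  · obtain ⟨n, hn1, hn2⟩ := ((small hl (z.1 - t * z.2) hε).and (large hl z.2 one_pos)).exists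
    have hP : 0 < l ^ n := pow_pos hl0 n
    refine ⟨l ^ n - z.2, by linarith, _, mem_deck X c hkd (-(n : ℤ)), rfl, ?_, ?_⟩
    · simp only [act, fwd, add_zero]
      have : l ^ (-(n : ℤ)) * (z.1 + t * (l ^ n - z.2)) - t = (z.1 - t * z.2) * (l ^ n)⁻¹ := by
        rw [zpow_neg, zpow_natCast]
        field_simp
        ring
      rw [this]
      exact hn1
    · simp only [act, fwd, add_zero]
      have : l ^ (-(n : ℤ)) * (z.2 + (l ^ n - z.2)) - 1 = 0 := by
        rw [zpow_neg, zpow_natCast]
        field_simp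
        ring
      rw [this, abs_zero]
      exact hε

end DS
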