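import Pool.Agent.H8.DS.TarG

set_option autoImplicit false

namespace DS

open Set Data

namespace H97RAY

lemma hopf_kind {C S : Type} (X : Data C S) (hX : X.Surface) (c : C) (hc : X.Hopf c) :
    ∃ l : ℝ, 1 < l ∧ X.kind c = .hopf l := by
  have hg := hX.good c
  unfold Data.Hopf at hc
  cases hk : X.kind c with
  | flat e f => rw [hk] at hc; exact absurd hc (by simp [Comp.IsHopf])
  | hopf l => rw [hk] at hg; exact ⟨l, hg, rfl⟩

lemma mem_deck {C S : Type} (X : Data C S) (c : C) {l : ℝ} (hk : X.kind c = .hopf l) (n : ℤ) :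
    ((l ^ n, 0, 0) : ℝ × ℝ × ℝ) ∈ X.deck c := by
  unfold Data.deck
  rw [hk]
  exact ⟨(n, 0), rfl⟩

lemma pure_valid {C S : Type} (X : Data C S) (c : C) (z : ℝ × ℝ) (h : X.Pure c z) :
    X.Valid c z := by
  refine ⟨?_, h.2⟩
  rintro ⟨s, hs, g, hg, h1 | h1⟩
  · exact h.1 ⟨s, hs, g, hg, 0, by simp, h1⟩
  · exact h.1 ⟨s, hs, g, hg, 1, by simp, h1⟩

end H97RAY

open H97RAY

theorem pf_RAY : T_RAY := by
  intro C S X hX t c hc σ hσ hpure k hk k' hk'
  obtain ⟨l, hl, hkd⟩ := hopf_kind X hX c hc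
  have hl0 : 0 < l := by linarith
  have hss : σ * σ = 1 := by rcases hσ with rfl | rfl <;> norm_num
  -- the power
  obtain ⟨n, hn⟩ : ∃ n : ℤ, σ * k < σ * (l ^ n * k') := by
    rcases hσ with rfl | rfl
    · obtain ⟨n, hn⟩ := pow_unbounded_of_one_lt (k / k') hl
      refine ⟨n, ?_⟩
      rw [div_lt_iff₀ hk'] at hn
      rw [zpow_natCast]; linarith
    · obtain ⟨n, hn⟩ := pow_unbounded_of_one_lt (k' / k) hl
      refine ⟨-n, ?_⟩
      rw [div_lt_iff₀ hk] at hn
      rw [zpow_neg, zpow_natCast]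
      have : (l ^ n)⁻¹ * k' < k := by
        rw [inv_mul_lt_iff₀ (pow_pos hl0 n)]; exact hn
      linarith
  have hp : 0 < l ^ n := zpow_pos hl0 _
  have hpt : ∀ y : ℝ, 0 < σ * y → X.Pure c (y * t, y) := by
    intro y hy
    have := hpure _ hy
    have e : σ * (σ * y) = y := by rw [← mul_assoc, hss, one_mul]
    rw [e] at this
    exact this
  have hfw : ∀ κ : ℝ, fwd t (σ * k * t, σ * k) κ = ((σ * k + κ) * t, σ * k + κ) := by
    intro κ
    unfold fwd
    ext
    · simp; ring
    · simp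
  refine ⟨_, Reach.step ⟨c, (σ * k * t, σ * k), 1, σ * (l ^ n * k') - σ * k, (l ^ (-n), 0, 0),
    Start.pure c _ (hpure k hk), by linarith, ?_, ?_, mem_deck X c hkd _, ?_, rfl⟩⟩
  · intro κ h1 h2
    rw [hfw]
    apply hpt
    rcases hσ with rfl | rfl
    · linarith
    · have : 0 < l ^ n * k' := mul_pos hp hk'
      linarith
  · rw [hfw]
    apply pure_valid
    apply hpt
    have : σ * (σ * k + (σ * (l ^ n * k') - σ * k)) = l ^ n * k' := by
      linear_combination (l ^ n * k') * hss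
    rw [this]
    exact mul_pos hp hk'
  · rw [hfw]
    have e : l ^ (-n) * (σ * k + (σ * (l ^ n * k') - σ * k)) = σ * k' := by
      rw [zpow_neg]
      field_simp
      ring
    have e2 : act (l ^ (-n), 0, 0) ((σ * k + (σ * (l ^ n * k') - σ * k)) * t,
        σ * k + (σ * (l ^ n * k') - σ * k)) = (σ * k' * t, σ * k') := by
      unfold act
      ext
      · simp only [add_zero]
        rw [← mul_assoc, e]
      · simp only [add_zero]
        rw [e]
    rw [e2]

end DS
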