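import Pool.Agent.H8.DS.TarG

set_option autoImplicit false

namespace DS

open Set Data

namespace H97RAY0

lemma hopf_kind {C S : Type} (X : Data C S) (hX : X.Surface) (c : C) (hc : X.Hopf c) :
    ∃ l : ℝ, 1 < l ∧ X.kind c = .hopf l := by
  have hg := hX.good c
  unfold Data.Hopf at hc
  cases hk : X.kind c with
  | flat e f => rw [hk] at hc; exact absurd hc (by simp [Comp.IsHopf])
  | hopf l => rw [hk] at hg; exact ⟨l, hg, rfl⟩

lemma mem_deck {C S : Type} (X : Data C S) (c : C) {l : ℝ} (hk : X.kind c = .hopf l) (n : ℤ) :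
    ((l ^ n, 0, 0) : ℝ × ℝ × ℝ) ∈ X.deck c := by
  unfold Data.deck
  rw [hk]
  exact ⟨(n, 0), rfl⟩

end H97RAY0

open H97RAY0

theorem pf_RAY0 (hEQV : T_EQV) : T_RAY0 := by
  intro C S X hX t c hc h hh hclear k hk
  obtain ⟨l, hl, hkd⟩ := hopf_kind X hX c hc
  obtain ⟨n, hn⟩ := pow_unbounded_of_one_lt (k / h) hl
  have hl0 : 0 < l := by linarith
  have hg := mem_deck X c hkd (-(n : ℤ))
  rw [← ((hEQV C S X hX c _ hg (k * t, k)).2.2.1)]
  have e : act (l ^ (-(n : ℤ)), 0, 0) (k * t, k) = fwd t 0 (l ^ (-(n : ℤ)) * k) := by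
    unfold act fwd
    ext
    · simp; ring
    · simp
  rw [e]
  have hp : 0 < l ^ (-(n : ℤ)) := zpow_pos hl0 _
  refine hclear _ (mul_pos hp hk) ?_
  rw [zpow_neg, zpow_natCast, inv_mul_lt_iff₀ (pow_pos hl0 n)]
  rw [div_lt_iff₀ hh] at hn
  exact hn

end DS
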